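import Mathlib

/-! TEAM NEG (S10566), core definitions.  Text: a4f561_h97_neg.md -/

set_option autoImplicit false

namespace Pool.Agent.W_a4f561_N97

/-- `(true, g)` = insert an element at index `g`, `(false, g)` = delete the element with index `g`. -/
abbrev Op := Bool × ℕ

/-- `l'` = `l` with a new element at index `g`. -/
def Ins (g : ℕ) (l l' : List ℕ) : Prop :=
  ∃ (A B : List ℕ) (v : ℕ), A.length = g ∧ l = A ++ B ∧ l' = A ++ v :: B

/-- one move -/
def Step (o : Op) (l l' : List ℕ) : Prop :=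
  if o.1 = true then Ins o.2 l l' else Ins o.2 l' l

/-- `s` follows the pattern `P` -/
def Run (P : List Op) (s : ℕ → List ℕ) : Prop :=
  ∀ i (h : i < P.length), Step P[i] (s i) (s (i + 1))

/-- all indices moved by `a` -/
def shift (a : ℕ) (P : List Op) : List Op := P.map (fun o => (o.1, o.2 + a))

/-- time reversal -/
def rev (P : List Op) : List Op := (P.map (fun o => (!o.1, o.2))).reverse

/-- `P` can be played on a list of length `n` and never touches its first and its last element -/
def WF : List Op → ℕ → Prop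
  | [], _ => True
  | (true, g) :: P, n => 1 ≤ g ∧ g < n ∧ WF P (n + 1)
  | (false, g) :: P, n => 1 ≤ g ∧ g + 1 < n ∧ WF P (n - 1)

/-- length after `P` -/
def lenf : List Op → ℕ → ℕ
  | [], n => n
  | (true, _) :: P, n => lenf P (n + 1)
  | (false, _) :: P, n => lenf P (n - 1)

/-- edges of the history `s` on `[0, T]` -/
def Ed (s : ℕ → List ℕ) (T : ℕ) (a b : ℕ) : Prop := ∃ i, i ≤ T ∧ [a, b] <:+: s i

/-- a `k`-chain of pairs of `E` over the cut `x` (elements `≤ x` are below, `> x` above) -/
def Ch (E : ℕ → ℕ → Prop) (x k : ℕ) : Prop :=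
  ∃ f g : ℕ → ℕ, (∀ i, i < k → E (f i) (g i) ∧ f i ≤ x ∧ x < g i) ∧
    ∀ i j, i < j → j < k → f i < f j ∧ g i < g j

/-- hypotheses on a history: sorted lists, convex lifetimes, no `(K+1)`-chain -/
structure World (K : ℕ) (s : ℕ → List ℕ) (T : ℕ) : Prop where
  srt : ∀ i, i ≤ T → (s i).Pairwise (· < ·)
  cvx : ∀ v i j k, i ≤ j → j ≤ k → k ≤ T → v ∈ s i → v ∈ s k → v ∈ s j
  noT : ∀ x, ¬ Ch (Ed s T) x (K + 1)

/-- the property `F(k)` of a gadget `P` of width `w` -/
structure Gad (K k w : ℕ) (P : List Op) : Prop where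
  w1 : 1 ≤ w
  wf : WF P (2 * w + 2)
  len : lenf P (2 * w + 2) = 2
  spec : ∀ (m : ℕ → List ℕ) (Lr Rr : List ℕ), m 0 = Lr ++ Rr → Lr.length = w + 1 →
    Rr.length = w + 1 → Run P m → World K m P.length →
    ∀ x, (∀ a ∈ Lr, a ≤ x) → (∀ b ∈ Rr, x < b) → Ch (Ed m P.length) x k

/-- the system `P^[N]` on stacks of `N * w + 1` elements on each side (round `0` = innermost) -/
def sys (w : ℕ) (P : List Op) : ℕ → List Op
  | 0 => []
  | N + 1 => shift (N * w) P ++ sys w P N

/-- `n` deletions at index `g` -/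
def dels (g n : ℕ) : List Op := List.replicate n (false, g)

/-- `n` insertions at index `g` -/
def inss (g n : ℕ) : List Op := List.replicate n (true, g)

/-- the next gadget, width `N * w + 1`:
(1) reversed system between `l` and `r`; (2) `2 N w` insertions; (3) delete `l`, `C_(Nw-1)`, .., `C_1`;
(4) system; (5) delete `D_1 .. r`; (6) system; (7) delete the two last elements. -/
def nxt (w N : ℕ) (P : List Op) : List Op :=
  shift (N * w + 1) (rev (sys w P N)) ++
  inss (2 * (N * w) + 2) (2 * (N * w)) ++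
  dels (N * w + 1) (N * w) ++
  sys w P N ++
  dels (N * w + 3) (N * w) ++
  shift 2 (sys w P N) ++
  dels 1 2

end Pool.Agent.W_a4f561_N97
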